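import Mathlib
import Pool.Agent.R819.FreeTVS
import Pool.Agent.R819.FreeTVS5

/-!
MP_9607dd_gt, Q1 (positive answer).

Let `X` be a Tychonoff k*-metrizable space (metrizable or not) and let `(V, i)` be a free
topological vector space over `X`. If `sp_2(X)` (or any level `sp_m(X)`, `m ≥ 2`) is a k-space, then
`V` is a k-space, in fact `X` and `V` are `k_ω`-spaces and every level is a (closed) k-space.
-/

namespace Pool.Agent.Results.MP_9607dd_gt.LevelTwo

open TopologicalSpace Pool.Agent.R819.FreeTVS

theorem result (X V : Type) [TopologicalSpace X] [T35Space X] (hX : KStarMetrizable X)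
    [AddCommGroup V] [Module ℝ V] [TopologicalSpace V] (i : X → V) (h : IsFreeTVS i) :
    (KSpace (sp i 2) → KSpace V) ∧
    (∀ m, 2 ≤ m → KSpace (sp i m) → KOmegaSpace X ∧ KOmegaSpace V ∧ KSpace V ∧
      ∀ n, IsClosed (sp i n) ∧ KSpace (sp i n)) := by
  obtain ⟨N, _, f, s, D⟩ := exists_kstar hX
  exact ⟨fun hk => (D.main h le_rfl hk).2.2.1, fun m hm hk => D.main h hm hk⟩

end Pool.Agent.Results.MP_9607dd_gt.LevelTwo
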